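import Mathlib
import Pool.Agent.W495.TA.Defs

/-!
# Abelian varieties over finite fields with given slope types
-/

namespace Pool.Agent.TH170.GS

open Pool.Agent.W495.TA

/-- A power of `x` is a power of the square root of `p ^ a`. -/
def IsSupersingular (p a : ℕ) {E : Type} [Field E] (x : E) : Prop :=
  ∃ s : ℕ, 0 < s ∧ x ^ (2 * s) = ((p : E) ^ a) ^ s

open Classical in
/-- The slope of `x` at the complex embedding `φ` of `E` is `(b + c M φ) / 2` if `φ ∈ Φ`, and
`(b - c M φ) / 2` otherwise (for the `p`-adic valuation of `ℂ` given by `ν`, with `v (p) = 1`). -/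
def HasSlopes {p : ℕ} [Fact p.Prime] (ν : PadicAlgCl p ≃+* ℂ) {E : Type} [Field E]
    (M : (E →+* ℂ) → ℤ) (Φ : Set (E →+* ℂ)) (b c : ℝ) (x : E) : Prop :=
  ∀ φ : E →+* ℂ, 2 * (- Real.logb p ‖ν.symm (φ x)‖) - b =
    c * (if φ ∈ Φ then (M φ : ℝ) else - M φ)

/-- Each factor of the abelian variety `Y` over the field with `p ^ a` elements is supersingular or
some power of its Frobenius endomorphism, the power with exponent `s`, say, is a Weil number `x` in
one of the fields `K i` (embedded in the CM field of the factor) with the slopes `s (a + κ M) / 2` at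
the embeddings in the type `Φ` and `s (a - κ M) / 2` at the other embeddings, where the real number
`κ i ≠ 0` depends only on `Y` and `i`. -/
def OfTypes {p : ℕ} [Fact p.Prime] {ν : PadicAlgCl p ≃+* ℂ} {I : Type} (K : I → Type)
    [∀ i, Field (K i)] (M : ∀ i, (K i →+* ℂ) → ℤ) (Φ : ∀ i, Set (K i →+* ℂ))
    (Y : RedAV p ν) : Prop :=
  ∃ κ : I → ℝ, (∀ i, κ i ≠ 0) ∧ ∀ k : Y.X.I, IsSupersingular p Y.a (Y.π k) ∨
    ∃ (i : I) (θ : K i →+* (Y.X.factor k).E) (x : K i) (s : ℕ), 0 < s ∧ θ x = Y.π k ^ s ∧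
      HasSlopes ν (M i) (Φ i) (s * Y.a) (s * κ i) x

end Pool.Agent.TH170.GS
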