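import Mathlib
import Pool.Agent.TH170.FW.Family
import Pool.Agent.TH170.GS.Defs
import Pool.Agent.TH117.BL.Rel

/-!
# The relations between the Frobenius eigenvalues of abelian varieties with given slope types
-/

set_option linter.unusedSectionVars false
set_option linter.unusedVariables false

namespace Pool.Agent.TH170.GS

open NumberField Finset Module Pool.Agent.H204R3.CM Pool.Agent.H977R3.CM Pool.Agent.TH170.CM
  Pool.Agent.TH170.MF Pool.Agent.W495.TA Pool.Agent.TH117 Pool.Agent.TH170.FW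

section rel

variable {I : Type} [Fintype I] {K : I → Type} [∀ i, Field (K i)]
  [∀ i, NumberField (K i)] [∀ i, IsCMField (K i)]

/-- The antisymmetric relations of families of types without degenerate member are trivial. -/
theorem trivial_of_rel {L : Type} [Field L] [NumberField L] [IsGalois ℚ L] (j : L →+* ℂ)
    (hj : ∀ i, ∀ ψ : K i →+* ℂ, ∃ φ : K i →+* L, j.comp φ = ψ)
    (hind : PairwiseIndep K) {M : ∀ i, (K i →+* ℂ) → ℤ}
    (hM : ∀ i φ, M i (ComplexEmbedding.conjugate φ) = M i φ)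
    {Φ : ∀ i, Set (K i →+* ℂ)} (hΦ : ∀ i, IsCMType (Φ i)) (hnd : ∀ i, Φ i ∉ degTypes (M i))
    (c : ∀ i, (K i →+* L) → ℤ) (hc : ∀ i φ, c i (cbar φ) = - c i φ)
    (hrel : ∀ g : L ≃ₐ[ℚ] L, ∑ i, ∑ φ : K i →+* L, c i φ *
      (CM.sgn (Φ i) (j.comp (g • φ)) * M i (j.comp (g • φ))) = 0) (i : I) (φ : K i →+* L) :
    c i φ = 0 := by
  classical
  let ε : ∀ i, (K i →+* L) → ℤ := fun i φ => CM.sgn (Φ i) (j.comp φ) * M i (j.comp φ)
  have hε : ∀ i φ, ε i (cbar φ) = - ε i φ := by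
    intro i φ
    simp only [ε]
    rw [comp_cbar, hM, (oddSign_sgn (hΦ i)).2]
    ring
  have hind' : ∀ i (g : L ≃ₐ[ℚ] L), ∑ φ : K i →+* L, c i φ * ε i (g • φ) = 0 := by
    intro i g
    refine indep (G := L ≃ₐ[ℚ] L) (fun i => K i →+* L) (fun i => cbar) ε hε
      (fun g i φ => rfl) ?_ c (fun g => hrel g) i g
    intro i i' hii φ ψ
    obtain ⟨σ, hσ1, hσ2⟩ := hind i i' hii (j.comp φ) (j.comp ψ)
    obtain ⟨g, hg⟩ := exists_gal j σ
    refine ⟨g, ?_, ?_⟩
    · ext x
      apply j.injective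
      rw [emb_smul_apply, ← hg]
      exact hσ1 x
    · ext x
      apply j.injective
      rw [emb_smul_apply, ← hg]
      have h1 := RingHom.congr_fun (comp_cbar j ψ) x
      rw [ComplexEmbedding.conjugate_coe_eq] at h1
      exact (hσ2 x).trans h1.symm
  by_contra hne
  apply hnd i
  refine ⟨hΦ i, exists_minimal_of_rel (fun ψ => c i ((toC j (hj i)).symm ψ)) ?_ ?_ ?_⟩
  · intro h0
    apply hne
    have h2 := congrFun h0 (toC j (hj i) φ)
    simpa only [Equiv.symm_apply_apply, Pi.zero_apply] using h2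
  · intro ψ
    rw [symm_conj, hc]
  · intro σ
    obtain ⟨g, hg⟩ := exists_gal j σ
    rw [← hind' i g]
    refine (Fintype.sum_equiv (toC j (hj i)) _ _ fun φ => ?_).symm
    rw [Equiv.symm_apply_apply]
    have h2 : (σ : ℂ →+* ℂ).comp (toC j (hj i) φ) = j.comp (g • φ) := by
      ext y
      exact hg (φ y)
    rw [h2]

/-- The antisymmetric integral relations of families of types without degenerate member are
trivial. -/
theorem trivial_int (hind : PairwiseIndep K) {M : ∀ i, (K i →+* ℂ) → ℤ}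
    (hM : ∀ i φ, M i (ComplexEmbedding.conjugate φ) = M i φ)
    {Φ : ∀ i, Set (K i →+* ℂ)} (hΦ : ∀ i, IsCMType (Φ i)) (hnd : ∀ i, Φ i ∉ degTypes (M i))
    (c : ∀ i, (K i →+* ℂ) → ℤ) (hc : ∀ i φ, c i (ComplexEmbedding.conjugate φ) = - c i φ)
    (hrel : ∀ σ : ℂ ≃+* ℂ, ∑ i, ∑ φ : K i →+* ℂ, c i φ *
      (CM.sgn (Φ i) ((σ : ℂ →+* ℂ).comp φ) * M i ((σ : ℂ →+* ℂ).comp φ)) = 0) (i : I)
    (φ : K i →+* ℂ) : c i φ = 0 := by
  classical
  obtain ⟨L, _, _, j, hj⟩ := exists_galois K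
  have h1 := trivial_of_rel j hj hind hM hΦ hnd (fun i φ => c i (j.comp φ))
    (fun i φ => by rw [comp_cbar, hc]) (fun g => ?_) i ((toC j (hj i)).symm φ)
  · have h2 : j.comp ((toC j (hj i)).symm φ) = φ := (toC j (hj i)).apply_symm_apply φ
    rw [h2] at h1
    exact h1
  · obtain ⟨σ, hσ⟩ := exists_aut j (g : L ≃+* L)
    rw [← hrel σ]
    refine sum_congr rfl fun i _ => ?_
    refine Fintype.sum_equiv (toC j (hj i)) _ _ fun ψ => ?_
    have h3 : (σ : ℂ →+* ℂ).comp (toC j (hj i) ψ) = j.comp (g • ψ) := by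
      ext y
      exact hσ (ψ y)
    rw [h3]
    rfl

/-- A common denominator. -/
theorem exists_den {X : Type} [Finite X] (q : X → ℚ) :
    ∃ (D : ℕ) (m : X → ℤ), D ≠ 0 ∧ ∀ z, (m z : ℚ) = D * q z := by
  classical
  have := Fintype.ofFinite X
  refine ⟨∏ z, (q z).den, fun z => (q z).num * ∏ y ∈ univ.erase z, ((q y).den : ℤ),
    prod_ne_zero_iff.2 fun z _ => (q z).den_nz, fun z => ?_⟩
  rw [← mul_prod_erase univ (fun z => (q z).den) (mem_univ z)]
  push_cast
  have h1 : ((q z).num : ℚ) = (q z).den * q z := by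
    rw [mul_comm]
    exact (Rat.mul_den_eq_num (q z)).symm
  rw [h1]
  ring

/-- The antisymmetric real relations of families of types without degenerate member are trivial. -/
theorem trivial_real (hind : PairwiseIndep K) {M : ∀ i, (K i →+* ℂ) → ℤ}
    (hM : ∀ i φ, M i (ComplexEmbedding.conjugate φ) = M i φ)
    {Φ : ∀ i, Set (K i →+* ℂ)} (hΦ : ∀ i, IsCMType (Φ i)) (hnd : ∀ i, Φ i ∉ degTypes (M i))
    (c : ∀ i, (K i →+* ℂ) → ℝ) (hc : ∀ i φ, c i (ComplexEmbedding.conjugate φ) = - c i φ)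
    (hrel : ∀ σ : ℂ ≃+* ℂ, ∑ i, ∑ φ : K i →+* ℂ, c i φ *
      ((CM.sgn (Φ i) ((σ : ℂ →+* ℂ).comp φ) * M i ((σ : ℂ →+* ℂ).comp φ) : ℤ) : ℝ) = 0) (i : I)
    (φ : K i →+* ℂ) : c i φ = 0 := by
  classical
  rw [← Module.forall_dual_apply_eq_zero_iff ℚ]
  intro l
  obtain ⟨D, m, hD, hm⟩ := exists_den fun z : Σ i, (K i →+* ℂ) => l (c z.1 z.2)
  have h1 : ∀ i φ, m ⟨i, φ⟩ = 0 := by
    refine trivial_int hind hM hΦ hnd (fun i φ => m ⟨i, φ⟩) (fun i φ => ?_) (fun σ => ?_)
    · have h2 : ((m ⟨i, ComplexEmbedding.conjugate φ⟩ : ℤ) : ℚ) = ((- m ⟨i, φ⟩ : ℤ) : ℚ) := by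
        rw [hm, Int.cast_neg, hm, hc, map_neg]
        ring
      exact_mod_cast h2
    · have h2 := congrArg (fun x => (D : ℚ) * l x) (hrel σ)
      simp only [map_sum, map_zero, mul_zero] at h2
      have h3 : ∀ (x : ℝ) (z : ℤ), l (x * (z : ℝ)) = l x * z := by
        intro x z
        rw [mul_comm, ← zsmul_eq_mul, map_zsmul, zsmul_eq_mul, mul_comm]
      simp only [h3, mul_sum] at h2
      have h4 : (∑ i, ∑ φ : K i →+* ℂ, ((m ⟨i, φ⟩ *
          (CM.sgn (Φ i) ((σ : ℂ →+* ℂ).comp φ) * M i ((σ : ℂ →+* ℂ).comp φ)) : ℤ) : ℚ)) = 0 := by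
        rw [← h2]
        refine sum_congr rfl fun i _ => sum_congr rfl fun φ _ => ?_
        rw [Int.cast_mul, hm]
        ring
      exact_mod_cast h4
  have h2 := hm ⟨i, φ⟩
  rw [h1, Int.cast_zero] at h2
  exact (mul_eq_zero.1 h2.symm).resolve_left (Nat.cast_ne_zero.2 hD)

end rel

section comb

/-- Symmetric exponents belong to the group generated by pairs. -/
theorem mem_of_symm {B X : Type} [Fintype B] [DecidableEq B] [Fintype X] [DecidableEq X]
    (H : AddSubgroup (B → ℤ)) (F : B → Option X) (inv : X → X) (hinv : ∀ z, inv (inv z) = z)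
    (hfix : ∀ z, inv z ≠ z) (hN : ∀ w, F w = none → (Pi.single w 1 : B → ℤ) ∈ H)
    (hH : ∀ w w' z, F w = some z → F w' = some (inv z) →
      (Pi.single w 1 + Pi.single w' 1 : B → ℤ) ∈ H)
    (hF : ∀ w z, F w = some z → ∃ w', F w' = some (inv z)) (e : B → ℤ)
    (he : ∀ z, ∑ w, (if F w = some z then e w else 0) =
      ∑ w, (if F w = some (inv z) then e w else 0)) :
    e ∈ H := by
  classical
  let q := QuotientAddGroup.mk' H
  let d : B → (B → ℤ) ⧸ H := fun w => q (Pi.single w 1)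
  have hd0 : ∀ w, F w = none → d w = 0 := fun w h => (QuotientAddGroup.eq_zero_iff _).2 (hN w h)
  have hd : ∀ w w' z, F w = some z → F w' = some (inv z) → d w + d w' = 0 := by
    intro w w' z h h'
    have h1 := hH w w' z h h'
    rw [← QuotientAddGroup.eq_zero_iff] at h1
    change q _ + q _ = 0
    rw [← map_add]
    exact h1
  let D : X → (B → ℤ) ⧸ H := fun z => if h : ∃ w, F w = some z then d h.choose else 0
  have hD : ∀ w z, F w = some z → D z = d w := by
    intro w z hz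
    have h : ∃ w', F w' = some z := ⟨w, hz⟩
    simp only [D, dif_pos h]
    obtain ⟨w', hw'⟩ := hF w z hz
    have h1 := hd w w' z hz hw'
    have h2 := hd h.choose w' z h.choose_spec hw'
    exact add_right_cancel (h2.trans h1.symm)
  have hDinv : ∀ z, D z + D (inv z) = 0 := by
    intro z
    by_cases h : ∃ w, F w = some z
    · obtain ⟨w, hw⟩ := h
      obtain ⟨w', hw'⟩ := hF w z hw
      rw [hD w z hw, hD w' _ hw', hd w w' z hw hw']
    · have h' : ¬ ∃ w, F w = some (inv z) := by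
        rintro ⟨w, hw⟩
        obtain ⟨w', hw'⟩ := hF w _ hw
        rw [hinv] at hw'
        exact h ⟨w', hw'⟩
      simp only [D, dif_neg h, dif_neg h', add_zero]
  have h1 : q e = ∑ w, e w • d w := by
    have h2 : e = ∑ w, e w • (Pi.single w 1 : B → ℤ) := by
      funext v
      rw [Finset.sum_apply, sum_eq_single v]
      · rw [Pi.smul_apply, Pi.single_eq_same, smul_eq_mul, mul_one]
      · intro w _ hw
        rw [Pi.smul_apply, Pi.single_eq_of_ne (Ne.symm hw), smul_zero]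
      · intro h
        exact absurd (mem_univ _) h
    conv_lhs => rw [h2]
    rw [map_sum]
    exact sum_congr rfl fun w _ => map_zsmul q _ _
  have h2 : q e = ∑ z, (∑ w, (if F w = some z then e w else 0)) • D z := by
    rw [h1]
    have h5 : ∀ z, (∑ w, (if F w = some z then e w else 0)) • D z =
        ∑ w, (if F w = some z then e w else 0) • D z := fun z =>
      map_sum (zmultiplesHom _ (D z)) _ _
    rw [sum_congr rfl fun z _ => h5 z, sum_comm]
    refine sum_congr rfl fun w _ => ?_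
    rcases hw : F w with _ | z
    · rw [hd0 w hw, smul_zero]
      symm
      refine sum_eq_zero fun z _ => ?_
      rw [if_neg (by simp), zero_smul]
    · rw [sum_eq_single z]
      · rw [if_pos rfl, hD w z hw]
      · intro z' _ hz
        rw [if_neg (fun h => hz (Option.some.inj h).symm), zero_smul]
      · intro h
        exact absurd (mem_univ _) h
  have h3 : q e = 0 := by
    rw [h2]
    refine sum_involution (fun z _ => inv z) ?_ ?_ (fun _ _ => mem_univ _) (fun z _ => hinv z)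
    · intro z _
      rw [← he z, ← zsmul_add, hDinv, zsmul_zero]
    · intro z _ _
      exact hfix z
  exact (QuotientAddGroup.eq_zero_iff e).1 h3

end comb

section av

variable {p : ℕ} [Fact p.Prime] {ν : PadicAlgCl p ≃+* ℂ}

/-- The complex conjugate embedding of the same factor. -/
noncomputable def conjE {Z : RedAV p ν} (w : BL.Emb Z) : BL.Emb Z :=
  ⟨w.1, ComplexEmbedding.conjugate w.2⟩

/-- Twice the slope of a conjugate of an eigenvalue, minus the weight. -/
noncomputable def dev (Y : RedAV p ν) (σ : ℂ ≃+* ℂ) (w : BL.Emb Y) : ℝ :=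
  2 * (- Real.logb p ‖ν.symm (σ (BL.eig Y w))‖) - Y.a

theorem norm_symm_p : ‖ν.symm (p : ℂ)‖ = (p : ℝ)⁻¹ := by
  rw [map_natCast]
  have h2 : (p : PadicAlgCl p) = ((p : ℚ_[p]) : PadicAlgCl p) := by
    rw [map_natCast]
  rw [h2, PadicAlgCl.norm_extends, Padic.norm_p]

theorem eig_ne_zero {Z : RedAV p ν} (w : BL.Emb Z) : BL.eig Z w ≠ 0 := by
  intro h
  have h1 := (Z.frob w.1).weil w.2
  have h2 : w.2 (Z.π w.1) = 0 := h
  rw [h2, norm_zero] at h1
  have h3 : (p : ℝ) ≠ 0 := Nat.cast_ne_zero.2 (Fact.out : p.Prime).ne_zero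
  have h4 := pow_ne_zero Z.a h3
  rw [← h1] at h4
  exact h4 (by norm_num)

/-- The slopes of the products in a relation. -/
theorem sum_dev_of_isRel {Z : RedAV p ν} {e : BL.Emb Z → ℕ} (he : BL.IsRel Z e)
    (σ : ℂ ≃+* ℂ) : ∑ w, (e w : ℝ) * dev Z σ w = 0 := by
  classical
  obtain ⟨s, hs, hrel⟩ := he
  have hp1 : (1 : ℝ) < p := by exact_mod_cast (Fact.out : p.Prime).one_lt
  have h1 := congrArg (fun y => ‖ν.symm (σ y)‖) hrel
  simp only [map_pow, map_prod, map_natCast, norm_pow, norm_prod] at h1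
  have hNp : ‖(p : PadicAlgCl p)‖ = (p : ℝ)⁻¹ := by
    have h2 : (p : PadicAlgCl p) = ((p : ℚ_[p]) : PadicAlgCl p) := by
      rw [map_natCast]
    rw [h2, PadicAlgCl.norm_extends, Padic.norm_p]
  rw [hNp] at h1
  have hN0 : ∀ w : BL.Emb Z, ‖ν.symm (σ (BL.eig Z w))‖ ≠ 0 := by
    intro w h
    rw [norm_eq_zero, map_eq_zero, map_eq_zero] at h
    exact eig_ne_zero w h
  have h2 := congrArg (Real.logb p) h1
  rw [Real.logb_pow, Real.logb_prod _ _ (fun w _ => pow_ne_zero _ (hN0 w)), Real.logb_pow,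
    Real.logb_pow, Real.logb_inv, Real.logb_self_eq_one hp1] at h2
  simp only [Real.logb_pow] at h2
  have h5 : ∑ w, (e w : ℝ) * dev Z σ w =
      -(2 * ∑ w : BL.Emb Z, (e w : ℝ) * Real.logb p ‖ν.symm (σ (BL.eig Z w))‖) -
        Z.a * ∑ w : BL.Emb Z, (e w : ℝ) := by
    rw [mul_sum, mul_sum, ← sum_neg_distrib, ← sum_sub_distrib]
    refine sum_congr rfl fun w _ => ?_
    unfold dev
    ring
  rw [h5]
  have hs' : (s : ℝ) ≠ 0 := Nat.cast_ne_zero.2 hs.ne'
  apply mul_left_cancel₀ hs'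
  rw [mul_zero]
  push_cast at h2
  linarith

/-- A relation with one eigenvalue. -/
theorem isRel_single {Z : RedAV p ν} [DecidableEq (BL.Emb Z)] (w : BL.Emb Z)
    (h : ∃ s : ℕ, 0 < s ∧ Z.π w.1 ^ (2 * s) = ((p : (Z.X.factor w.1).E) ^ Z.a) ^ s) :
    BL.IsRel Z (Pi.single w 1) := by
  obtain ⟨s, hs, h⟩ := h
  have hsum : ∑ v, (Pi.single w 1 : BL.Emb Z → ℕ) v = 1 := by
    simp only [Finset.sum_pi_single', mem_univ, if_true]
  refine ⟨s, hs, ?_⟩
  rw [prod_eq_single w]
  · rw [Pi.single_eq_same, pow_one, hsum, mul_one]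
    have h1 := congrArg w.2 h
    rw [map_pow, map_pow, map_pow, map_natCast] at h1
    exact h1
  · intro v _ hv
    rw [Pi.single_eq_of_ne hv, pow_zero]
  · intro h
    exact absurd (mem_univ _) h

theorem single_mem {Z : RedAV p ν} [DecidableEq (BL.Emb Z)] (w : BL.Emb Z)
    (h : ∃ s : ℕ, 0 < s ∧ Z.π w.1 ^ (2 * s) = ((p : (Z.X.factor w.1).E) ^ Z.a) ^ s) :
    (Pi.single w 1 : BL.Emb Z → ℤ) ∈ AddSubgroup.closure
      {d : BL.Emb Z → ℤ | ∃ n : BL.Emb Z → ℕ, BL.IsRel Z n ∧ BL.IsElementary Z n ∧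
        ∀ w, d w = n w} := by
  have hsum : ∑ v, (Pi.single w 1 : BL.Emb Z → ℕ) v = 1 := by
    simp only [Finset.sum_pi_single', mem_univ, if_true]
  refine AddSubgroup.subset_closure ⟨Pi.single w 1, isRel_single w h,
    Or.inl (hsum.le.trans one_le_two), fun v => ?_⟩
  simp only [Pi.single_apply]
  split_ifs <;> simp

/-- A relation with two eigenvalues. -/
theorem pair_mem {Z : RedAV p ν} [DecidableEq (BL.Emb Z)] (w w' : BL.Emb Z)
    (h : ∀ σ : ℂ ≃+* ℂ, dev Z σ w + dev Z σ w' = 0) :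
    (Pi.single w 1 + Pi.single w' 1 : BL.Emb Z → ℤ) ∈ AddSubgroup.closure
      {d : BL.Emb Z → ℤ | ∃ n : BL.Emb Z → ℕ, BL.IsRel Z n ∧ BL.IsElementary Z n ∧
        ∀ w, d w = n w} := by
  classical
  have hsum : ∑ v, (Pi.single w 1 + Pi.single w' 1 : BL.Emb Z → ℕ) v = 2 := by
    simp only [Pi.add_apply, sum_add_distrib, Finset.sum_pi_single', mem_univ, if_true]
  refine AddSubgroup.subset_closure ⟨Pi.single w 1 + Pi.single w' 1, ?_, Or.inl hsum.le,
    fun v => ?_⟩
  · have hne : Nonempty Z.X.I := ⟨w.1⟩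
    obtain ⟨L, _, _, _, _, j, hj⟩ := Pool.Agent.W547.KB.exists_cm Z.X
    have hbij := BL.toEmb_bijective (j := j) (Z := Z) hj
    let E : Pool.Agent.W547.KB.Wt Z.X L ≃ BL.Emb Z := Equiv.ofBijective _ hbij
    let _ : Fintype (Pool.Agent.W547.KB.Wt Z.X L) := Fintype.ofEquiv _ E.symm
    refine (BL.isRel_iff (Z := Z) (j := j) hj _).2 fun g => ?_
    obtain ⟨σ, hσ⟩ := exists_aut j (g : L ≃+* L)
    have hp1 : (1 : ℝ) < p := by exact_mod_cast (Fact.out : p.Prime).one_lt
    have hNp : ‖(p : PadicAlgCl p)‖ = (p : ℝ)⁻¹ := by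
      have h2 : (p : PadicAlgCl p) = ((p : ℚ_[p]) : PadicAlgCl p) := by
        rw [map_natCast]
      rw [h2, PadicAlgCl.norm_extends, Padic.norm_p]
    have key : ∀ v : Pool.Agent.W547.KB.Wt Z.X L,
        (Nat.card (W495.TA.Dec p ν j) : ℝ) * dev Z σ (BL.toEmb j Z v) =
          Z.a * ((BL.tw p ν j Z.X v g : ℤ) : ℝ) := by
      intro v
      have h1 := BL.norm_pow_two_card (Z := Z) (j := j) hj v g
      have hlp : Real.log p ≠ 0 := (Real.log_pos hp1).ne'
      have h2 := congrArg (fun x => Real.log x / Real.log p) h1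
      beta_reduce at h2
      rw [Real.log_zpow, Real.log_zpow, hNp, Real.log_inv, mul_div_assoc, mul_div_assoc,
        neg_div, div_self hlp] at h2
      change _ * Real.logb p _ = _ at h2
      have h3 : ν.symm (σ (BL.eig Z (BL.toEmb j Z v))) = ν.symm (j (g (v.2 (Z.π v.1)))) :=
        congrArg ν.symm (hσ (v.2 (Z.π v.1)))
      unfold dev
      rw [h3]
      push_cast at h2
      linarith
    have ha : (Z.a : ℝ) ≠ 0 := Nat.cast_ne_zero.2 Z.pos.ne'
    have h4 := h σ
    obtain ⟨v, rfl⟩ := hbij.2 w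
    obtain ⟨v', rfl⟩ := hbij.2 w'
    have h5 : ((BL.tw p ν j Z.X v g : ℤ) : ℝ) + ((BL.tw p ν j Z.X v' g : ℤ) : ℝ) = 0 := by
      have h6 : (Z.a : ℝ) * (((BL.tw p ν j Z.X v g : ℤ) : ℝ) +
          ((BL.tw p ν j Z.X v' g : ℤ) : ℝ)) = 0 := by
        rw [mul_add, ← key, ← key, ← mul_add, h4, mul_zero]
      exact (mul_eq_zero.1 h6).resolve_left ha
    have h6 : ∀ u : Pool.Agent.W547.KB.Wt Z.X L,
        ((((Pi.single (BL.toEmb j Z v) 1 + Pi.single (BL.toEmb j Z v') 1 : BL.Emb Z → ℕ)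
          (BL.toEmb j Z u) : ℕ) : ℤ) * BL.tw p ν j Z.X u g) =
        (if u = v then BL.tw p ν j Z.X u g else 0) +
          (if u = v' then BL.tw p ν j Z.X u g else 0) := by
      intro u
      rw [Pi.add_apply, Pi.single_apply, Pi.single_apply]
      simp only [hbij.1.eq_iff]
      split_ifs <;> (simp; try ring)
    rw [sum_congr rfl fun u _ => h6 u, sum_add_distrib, sum_ite_eq' univ v,
      sum_ite_eq' univ v', if_pos (mem_univ _), if_pos (mem_univ _)]
    exact_mod_cast h5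
  · rw [Pi.add_apply, Pi.add_apply, Nat.cast_add]
    simp only [Pi.single_apply]
    split_ifs <;> simp

end av

section main

variable {p : ℕ} [Fact p.Prime] {ν : PadicAlgCl p ≃+* ℂ} {I : Type} [Fintype I] {K : I → Type}
  [∀ i, Field (K i)] [∀ i, NumberField (K i)] [∀ i, IsCMField (K i)]

/-- All relations between the Frobenius eigenvalues of an abelian variety whose slope types are not
degenerate are elementary. -/
theorem elementary_of_types (hind : PairwiseIndep K) {M : ∀ i, (K i →+* ℂ) → ℤ}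
    (hM : ∀ i φ, M i (ComplexEmbedding.conjugate φ) = M i φ)
    {Φ : ∀ i, Set (K i →+* ℂ)} (hΦ : ∀ i, IsCMType (Φ i)) (hnd : ∀ i, Φ i ∉ degTypes (M i))
    {Y : RedAV p ν} (hY : OfTypes K M Φ Y) : BL.HasElementaryRelations Y := by
  classical
  intro e he
  obtain ⟨κ, hκ, hY⟩ := hY
  let S : Y.X.I → Prop := fun k =>
    ∃ s : ℕ, 0 < s ∧ Y.π k ^ (2 * s) = ((p : (Y.X.factor k).E) ^ Y.a) ^ s
  have hY' : ∀ k, ¬ S k → ∃ (i : I) (θ : K i →+* (Y.X.factor k).E) (x : K i) (s : ℕ), 0 < s ∧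
      θ x = Y.π k ^ s ∧ ∀ φ : K i →+* ℂ, 2 * (- Real.logb p ‖ν.symm (φ x)‖) - s * Y.a =
        s * κ i * (if φ ∈ Φ i then (M i φ : ℝ) else - M i φ) := fun k hk =>
    (hY k).resolve_left hk
  choose t θ x s hs hθ hsl using hY'
  let ε : ∀ i, (K i →+* ℂ) → ℝ := fun i φ => ((CM.sgn (Φ i) φ * M i φ : ℤ) : ℝ)
  have hεc : ∀ i φ, ε i (ComplexEmbedding.conjugate φ) = - ε i φ := by
    intro i φ
    simp only [ε]
    rw [hM, (oddSign_sgn (hΦ i)).2]
    push_cast
    ring
  let X : Type := Σ i, (K i →+* ℂ)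
  let inv : X → X := fun z => ⟨z.1, ComplexEmbedding.conjugate z.2⟩
  have hinv : ∀ z, inv (inv z) = z := by
    rintro ⟨i, φ⟩
    simp only [inv, conj_conj]
  let F : BL.Emb Y → Option X := fun w =>
    if h : S w.1 then none else some ⟨t w.1 h, w.2.comp (θ w.1 h)⟩
  have hF1 : ∀ w, S w.1 → F w = none := fun w h => dif_pos h
  have hF2 : ∀ w (h : ¬ S w.1), F w = some ⟨t w.1 h, w.2.comp (θ w.1 h)⟩ := fun w h => dif_neg h
  have hFc : ∀ w z, F w = some z → F (conjE w) = some (inv z) := by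
    intro w z hz
    by_cases h : S w.1
    · rw [hF1 w h] at hz
      exact absurd hz (by simp)
    · rw [hF2 w h] at hz
      rw [← Option.some.inj hz, hF2 (conjE w) h]
      rfl
  -- the slopes
  have hdev0 : ∀ w, F w = none → ∀ σ, dev Y σ w = 0 := by
    intro w hw σ
    have h : S w.1 := by
      by_contra h
      rw [hF2 w h] at hw
      exact absurd hw (by simp)
    have h1 := sum_dev_of_isRel (isRel_single w h) σ
    rw [sum_eq_single w] at h1
    · rwa [Pi.single_eq_same, Nat.cast_one, one_mul] at h1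
    · intro v _ hv
      rw [Pi.single_eq_of_ne hv, Nat.cast_zero, zero_mul]
    · intro h
      exact absurd (mem_univ _) h
  have hdev : ∀ w z, F w = some z → ∀ σ : ℂ ≃+* ℂ,
      dev Y σ w = κ z.1 * ε z.1 ((σ : ℂ →+* ℂ).comp z.2) := by
    intro w z hz σ
    by_cases h : S w.1
    · rw [hF1 w h] at hz
      exact absurd hz (by simp)
    · rw [hF2 w h] at hz
      rw [← Option.some.inj hz]
      have h1 := hsl w.1 h ((σ : ℂ →+* ℂ).comp (w.2.comp (θ w.1 h)))
      have h2 : ((σ : ℂ →+* ℂ).comp (w.2.comp (θ w.1 h))) (x w.1 h) =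
          σ (BL.eig Y w) ^ s w.1 h := by
        change σ (w.2 (θ w.1 h (x w.1 h))) = _
        rw [hθ, map_pow, map_pow]
        rfl
      rw [h2, map_pow, norm_pow, Real.logb_pow] at h1
      have hs0 : (s w.1 h : ℝ) ≠ 0 := Nat.cast_ne_zero.2 (hs w.1 h).ne'
      apply mul_left_cancel₀ hs0
      have h3 : (s w.1 h : ℝ) * dev Y σ w =
          2 * (-(s w.1 h * Real.logb p ‖ν.symm (σ (BL.eig Y w))‖)) - s w.1 h * Y.a := by
        unfold dev
        ring
      rw [h3, h1, mul_assoc]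
      congr 2
      simp only [ε, CM.sgn]
      split_ifs
      · push_cast
        ring
      · push_cast
        ring
  -- the antisymmetric exponents
  let a : ∀ i, (K i →+* ℂ) → ℝ := fun i φ =>
    ∑ w : BL.Emb Y, (e w : ℝ) * ((if F w = some ⟨i, φ⟩ then 1 else 0) -
      (if F w = some ⟨i, ComplexEmbedding.conjugate φ⟩ then 1 else 0))
  let c : ∀ i, (K i →+* ℂ) → ℝ := fun i φ => κ i * a i φ
  have hc : ∀ i φ, c i (ComplexEmbedding.conjugate φ) = - c i φ := by
    intro i φ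
    simp only [c, a]
    rw [conj_conj, ← mul_neg, ← sum_neg_distrib]
    congr 1
    exact sum_congr rfl fun w _ => by ring
  have hrel' : ∀ σ : ℂ ≃+* ℂ, ∑ i, ∑ φ : K i →+* ℂ, c i φ *
      ((CM.sgn (Φ i) ((σ : ℂ →+* ℂ).comp φ) * M i ((σ : ℂ →+* ℂ).comp φ) : ℤ) : ℝ) = 0 := by
    intro σ
    have h1 : ∑ i, ∑ φ : K i →+* ℂ, c i φ *
        ((CM.sgn (Φ i) ((σ : ℂ →+* ℂ).comp φ) * M i ((σ : ℂ →+* ℂ).comp φ) : ℤ) : ℝ) =
        ∑ z : X, ∑ w : BL.Emb Y, (e w : ℝ) * (((if F w = some z then 1 else 0) -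
          (if F w = some (inv z) then 1 else 0)) *
            (κ z.1 * ε z.1 ((σ : ℂ →+* ℂ).comp z.2))) := by
      rw [← Finset.univ_sigma_univ, Finset.sum_sigma]
      refine sum_congr rfl fun i _ => sum_congr rfl fun φ _ => ?_
      simp only [c, a]
      rw [mul_sum, sum_mul]
      refine sum_congr rfl fun w _ => ?_
      simp only [ε, inv]
      ring
    rw [h1, sum_comm]
    have h2 : ∀ w : BL.Emb Y, ∑ z : X, (e w : ℝ) * (((if F w = some z then 1 else 0) -
          (if F w = some (inv z) then 1 else 0)) *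
            (κ z.1 * ε z.1 ((σ : ℂ →+* ℂ).comp z.2))) = 2 * ((e w : ℝ) * dev Y σ w) := by
      intro w
      rw [← mul_sum]
      rcases hw : F w with _ | z
      · rw [hdev0 w hw]
        simp
      · have h3 : ∀ z' : X, (((if some z = some z' then (1 : ℝ) else 0) -
            (if some z = some (inv z') then 1 else 0)) *
              (κ z'.1 * ε z'.1 ((σ : ℂ →+* ℂ).comp z'.2))) =
            (if z = z' then κ z'.1 * ε z'.1 ((σ : ℂ →+* ℂ).comp z'.2) else 0) -
              (if inv z = z' then κ z'.1 * ε z'.1 ((σ : ℂ →+* ℂ).comp z'.2) else 0) := by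
          intro z'
          have h4 : (z = inv z') ↔ (inv z = z') :=
            ⟨fun h => by rw [h, hinv], fun h => by rw [← h, hinv]⟩
          simp only [Option.some_inj, h4]
          split_ifs <;> ring
        rw [sum_congr rfl fun z' _ => h3 z', sum_sub_distrib, sum_ite_eq univ z,
          sum_ite_eq univ (inv z), if_pos (mem_univ _), if_pos (mem_univ _), hdev w z hw σ]
        have h5 : ε (inv z).1 ((σ : ℂ →+* ℂ).comp (inv z).2) =
            - ε z.1 ((σ : ℂ →+* ℂ).comp z.2) := by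
          change ε z.1 ((σ : ℂ →+* ℂ).comp (ComplexEmbedding.conjugate z.2)) = _
          rw [QC.comp_conj, hεc]
        have h6 : κ (inv z).1 = κ z.1 := rfl
        rw [h5, h6]
        ring
    rw [sum_congr rfl fun w _ => h2 w, ← mul_sum, sum_dev_of_isRel he, mul_zero]
  have h0 : ∀ i φ, a i φ = 0 := fun i φ =>
    (mul_eq_zero.1 (trivial_real hind hM hΦ hnd c hc hrel' i φ)).resolve_left (hκ i)
  refine mem_of_symm _ F inv hinv ?_ ?_ ?_ ?_ (fun w => (e w : ℤ)) ?_
  · rintro ⟨i, φ⟩ h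
    exact conj_ne φ (eq_of_heq (Sigma.mk.inj h).2)
  · intro w hw
    apply single_mem
    by_contra h
    have h1 := hF2 w h
    rw [hw] at h1
    exact absurd h1 (by simp)
  · intro w w' z hz hz'
    refine pair_mem w w' fun σ => ?_
    rw [hdev w z hz, hdev w' (inv z) hz']
    have h5 : ε (inv z).1 ((σ : ℂ →+* ℂ).comp (inv z).2) =
        - ε z.1 ((σ : ℂ →+* ℂ).comp z.2) := by
      change ε z.1 ((σ : ℂ →+* ℂ).comp (ComplexEmbedding.conjugate z.2)) = _
      rw [QC.comp_conj, hεc]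
    have h6 : κ (inv z).1 = κ z.1 := rfl
    rw [h5, h6]
    ring
  · intro w z hz
    exact ⟨conjE w, hFc w z hz⟩
  · rintro ⟨i, φ⟩
    have h1 := h0 i φ
    simp only [a, mul_sub, mul_ite, mul_one, mul_zero, sum_sub_distrib] at h1
    have h2 := sub_eq_zero.1 h1
    have h3 : ((∑ w, (if F w = some ⟨i, φ⟩ then (e w : ℤ) else 0) : ℤ) : ℝ) =
        ((∑ w, (if F w = some (inv ⟨i, φ⟩) then (e w : ℤ) else 0) : ℤ) : ℝ) := by
      push_cast
      exact h2
    exact_mod_cast h3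

end main

end Pool.Agent.TH170.GS
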