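import Mathlib
import Pool.Agent.H204R3.CM.Defs

/-!
# The bound for the proportion of the degenerate slope types
-/

namespace Pool.Agent.TH170.GS

open NumberField Module Pool.Agent.H204R3.CM

/-- The rational functions on the complex embeddings of `E`. -/
abbrev Fn (E : Type) [Field E] : Type := (E →+* ℂ) → ℚ

/-- The spaces of rational functions on the complex embeddings of `E`. -/
abbrev Space (E : Type) [Field E] : Type := Submodule ℚ (Fn E)

section

variable {E : Type} [Field E]

/-- The function `u` belongs to `S`. -/
def Has (S : Space E) (u : Fn E) : Prop := u ∈ S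

/-- The dimension of `S`. -/
noncomputable def dim (S : Space E) : ℕ := finrank ℚ S

/-- The space `S` is contained in `W`. -/
def IsIn (S W : Space E) : Prop := S ≤ W

/-- The space is stable under the automorphisms of the complex numbers. -/
def IsStable (S : Space E) : Prop :=
  ∀ σ : ℂ ≃+* ℂ, ∀ u, Has S u → Has S fun φ => u ((σ : ℂ →+* ℂ).comp φ)

/-- All functions in the space change the sign under complex conjugation. -/
def IsOddSpace (S : Space E) : Prop :=
  ∀ u, Has S u → ∀ φ : E →+* ℂ, u (ComplexEmbedding.conjugate φ) = - u φ

/-- The minimal Galois-stable spaces of odd functions. -/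
def IsMin (S : Space E) : Prop :=
  S ≠ ⊥ ∧ IsStable S ∧ IsOddSpace S ∧ ∀ S' : Space E, IsStable S' → IsIn S' S → S' = ⊥ ∨ S' = S

variable (E) in
/-- The order of the Galois group (of the normal closure of `E`, acting on the complex
embeddings). -/
noncomputable def galoisOrder : ℕ :=
  Nat.card (Set.range fun (σ : ℂ ≃+* ℂ) (φ : E →+* ℂ) => (σ : ℂ →+* ℂ).comp φ)

/-- The functions of two embeddings that are invariant under the Galois group: the matrices of the
equivariant endomorphisms of the space of all functions. -/
def IsInvariant (M : (E →+* ℂ) → Fn E) : Prop :=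
  ∀ (σ : ℂ ≃+* ℂ) (φ ψ : E →+* ℂ),
    M ((σ : ℂ →+* ℂ).comp φ) ((σ : ℂ →+* ℂ).comp ψ) = M φ ψ

/-- The dimension of the space of the equivariant endomorphisms of `S`, given by their matrices (the
endomorphisms are extended by zero to the orthogonal complement of `S`). -/
noncomputable def dimEnd (S : Space E) : ℕ :=
  Set.finrank ℚ {M : (E →+* ℂ) → Fn E |
    IsInvariant M ∧ (∀ φ, Has S (M φ)) ∧ ∀ ψ, Has S fun φ => M φ ψ}

/-- The dimension of the space of the functions in `S` that are invariant under the stabilizer of
`φ₀`. -/
noncomputable def dimFixed (φ₀ : E →+* ℂ) (S : Space E) : ℕ :=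
  Set.finrank ℚ {u : Fn E | Has S u ∧ ∀ σ : ℂ ≃+* ℂ, (σ : ℂ →+* ℂ).comp φ₀ = φ₀ →
    ∀ φ, u ((σ : ℂ →+* ℂ).comp φ) = u φ}

/-- The number `c`: the dimension of the space of the equivariant endomorphisms of `S`, plus the
dimension of `S`, minus the dimension of the space of the functions in `S` that are invariant under
the stabilizer of `φ₀`. -/
noncomputable def codim (φ₀ : E →+* ℂ) (S : Space E) : ℕ :=
  dimEnd S + (dim S - dimFixed φ₀ S)

/-- Some function with integral values in the space has an odd sum over a CM type. -/
def HasOddSum (S : Space E) : Prop :=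
  ∃ u : (E →+* ℂ) → ℤ, Has S (fun φ => (u φ : ℚ)) ∧
    ∃ T : Set (E →+* ℂ), IsCMType T ∧ Odd (∑ᶠ φ ∈ T, u φ)

end

open Classical in
/-- The smaller of `(53 l d / g) ^ (c / 2)` (replaced by `1` unless
`(10 ^ 4 + 10 l) ^ 2 l d ≤ 2 g`) and
`8 (2 d / (π g)) ^ (d / 2) (10 ^ 4 + 10 l + 6 √(d g)) ^ (d - c)`. -/
noncomputable def bound (g d c : ℕ) (l : ℝ) : ℝ :=
  min (if (10 ^ 4 + 10 * l) ^ 2 * l * d ≤ 2 * g then √(53 * l * d / g) ^ c else 1)
    (8 * √(2 * d / (Real.pi * g)) ^ d * (10 ^ 4 + 10 * l + 6 * √(d * g)) ^ (d - c))

variable {E : Type} [Field E] [NumberField E]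

/-- The isotypic component of a space `S`: it is generated by the images of `S` under the
equivariant endomorphisms of the space of the rational functions on the embeddings. -/
noncomputable def component (S : Space E) : Space E :=
  Submodule.span ℚ {v | ∃ M, IsInvariant M ∧ ∃ u, Has S u ∧ ∀ φ, v φ = ∑ ψ, M φ ψ * u ψ}

/-- The isotypic components of the odd functions. -/
def IsComponent (W : Space E) : Prop := ∃ S : Space E, IsMin S ∧ component S = W

open Classical in
/-- The bound for the proportion of the types that are degenerate at the component `W` of dimension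
`d`, for weights that divide `n`: it is `0` if `n` is odd and each minimal space in `W` contains a
function with integral values whose sum over a CM type is odd; otherwise, if `W` is a minimal space
it is `(2 d / (π g)) ^ (d / 2)`, and if `W` is not minimal it is the number
`bound g (dim S) (codim S) (log (|G| n))` for the minimal spaces `S` with the component `W`. -/
noncomputable def weight (n g : ℕ) (φ₀ : E →+* ℂ) (W : Space E) : ℝ :=
  if Odd n ∧ ∀ S : Space E, IsMin S → IsIn S W → HasOddSum S then 0
  else if IsMin W then √(2 * dim W / (Real.pi * g)) ^ dim W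
  else sInf {x | ∃ S : Space E, IsMin S ∧ component S = W ∧
    x = bound g (dim S) (codim φ₀ S) (Real.log (galoisOrder E * n : ℕ))}

/-- The bound `ρ` for the proportion of the degenerate types of a CM field `E` of degree `2 g`, for
weights that divide `n`: the sum of the weights of the isotypic components. -/
noncomputable def rho (n g : ℕ) (φ₀ : E →+* ℂ) : ℝ :=
  ∑ᶠ (W : Space E) (_ : IsComponent W), weight n g φ₀ W

variable (E) in
/-- The number of the imaginary quadratic subfields of `E`. -/
noncomputable def numQuad : ℕ :=
  {K : IntermediateField ℚ E | finrank ℚ K = 2 ∧ ¬ IsTotallyReal K}.ncard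

variable (E) in
/-- The number of the isotypic components of dimension `d` that are minimal Galois-stable spaces. -/
noncomputable def numSimple (d : ℕ) : ℕ :=
  {W : Space E | IsComponent W ∧ IsMin W ∧ dim W = d}.ncard

/-- The estimate of the contribution of the components that are minimal spaces to `ρ`, for all CM
fields `E`. -/
def RhoEstimate : Prop :=
  ∀ (E : Type) [Field E] [NumberField E] [IsCMField E] (n g : ℕ) (φ₀ : E →+* ℂ),
    finrank ℚ E = 2 * g → rho n g φ₀ ≤
      (if Even (n * g) then (numQuad E : ℝ) / √g else 0) + 2 * (numSimple E 2 + 1) / g +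
        3 * numSimple E 3 / (g * √g) +
          ∑ᶠ (W : Space E) (_ : IsComponent W ∧ ¬ IsMin W), weight n g φ₀ W

/-- Two kinds of CM fields all of whose isotypic components are minimal spaces: the fields that are
abelian over `ℚ`, and those any two embeddings of which can be exchanged by an automorphism of the
complex numbers. -/
def NoMultipleComponents : Prop :=
  ∀ (E : Type) [Field E] [NumberField E] [IsCMField E],
    (IsAbelianGalois ℚ E ∨ ∀ φ ψ : E →+* ℂ, ∃ σ : ℂ ≃+* ℂ,
      (σ : ℂ →+* ℂ).comp φ = ψ ∧ (σ : ℂ →+* ℂ).comp ψ = φ) →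
        ∀ W : Space E, IsComponent W → IsMin W

end Pool.Agent.TH170.GS
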