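import Mathlib
import Pool.Agent.TH170.GS.Rho
import Pool.Agent.TH170.FW.Family
import Pool.Agent.TH170.QD.Use

/-!
# Comparison with the definitions in `FW`
-/

namespace Pool.Agent.TH170.GS

open NumberField Module

section

variable {E : Type} [Field E] [NumberField E]

theorem weight_eq (n g : ℕ) (φ₀ : E →+* ℂ) (W : Space E) :
    weight n g φ₀ W = FW.weight n g φ₀ W := rfl

theorem rho_eq (n g : ℕ) (φ₀ : E →+* ℂ) : rho n g φ₀ = FW.rho n g φ₀ := rfl

end

theorem rhoEstimate : RhoEstimate := FW.rhoEstimate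

theorem noMultipleComponents : NoMultipleComponents := by
  intro E _ _ _ h W hW
  by_contra h1
  have h2 : W ∈ QD.multipleComponents E := ⟨hW, h1⟩
  rw [QD.rho_bounds.2 E h] at h2
  exact h2

end Pool.Agent.TH170.GS
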