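import Mathlib
import Pool.Agent.TH170.GS.Rel
import Pool.Agent.TH170.GS.RhoEq

/-!
# Properties of the abelian varieties with almost all slope types
-/

set_option linter.unusedSectionVars false
set_option linter.unusedVariables false

namespace Pool.Agent.TH170.GS

open NumberField Finset Module Pool.Agent.H204R3.CM Pool.Agent.H977R3.CM Pool.Agent.TH170.CM
  Pool.Agent.TH170.MF Pool.Agent.W495.TA Pool.Agent.TH117 Pool.Agent.TH170.FW

/-- A property that holds if all abelian varieties with the given slope types are isogenous to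
products of supersingular ones and of powers of factors of such with elementary relations between the
Frobenius eigenvalues holds for almost all families of types. -/
theorem ncard_le {p : ℕ} [Fact p.Prime] (ν : PadicAlgCl p ≃+* ℂ) {I : Type} [Fintype I]
    (K : I → Type) [∀ i, Field (K i)] [∀ i, NumberField (K i)] [∀ i, IsCMField (K i)]
    (M : ∀ i, (K i →+* ℂ) → ℤ) (n g : I → ℕ) (φ₀ : ∀ i, K i →+* ℂ)
    (hind : PairwiseIndep K) (hM : ∀ i φ, M i (ComplexEmbedding.conjugate φ) = M i φ)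
    (hn : ∀ i, n i ≠ 0) (hMn : ∀ i φ, M i φ ∣ (n i : ℤ)) (hg : ∀ i, finrank ℚ (K i) = 2 * g i)
    (P : (∀ i, Set (K i →+* ℂ)) → Prop)
    (hP : ∀ Φ, (∀ Y : RedAV p ν, OfTypes K M Φ Y →
      ∃ Z : RedAV p ν, BL.HasElementaryRelations Z ∧ BL.IsPowersTimesSupersingular Z Y) → P Φ) :
    (({Φ : ∀ i, Set (K i →+* ℂ) | (∀ i, IsCMType (Φ i)) ∧ ¬ P Φ}.ncard : ℕ) : ℝ) ≤
      2 ^ (∑ i, g i) * ∑ i, GS.rho (n i) (g i) (φ₀ i) := by
  refine ncard_families_gen K hg (fun i => degTypes (M i)) (fun i => FW.rho (n i) (g i) (φ₀ i))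
    (fun i Φ hΦ => hΦ.1) (fun i => ncard_degTypes_le (hn i) (hMn i) (hM i) (hg i) (φ₀ i)) P ?_
  intro Φ hΦ hnd
  refine hP Φ fun Y hY => ⟨Y, elementary_of_types hind hM hΦ hnd hY, fun k => Or.inr
    ⟨k, RingHom.id _, 1, 1, one_pos, one_pos, rfl, rfl⟩⟩

end Pool.Agent.TH170.GS
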