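import Mathlib
import Pool.Agent.TH170.GS.Defs
import Pool.Agent.TH117.GN.NumDefs

/-!
# Murre's conjectures for motives over finite fields: definitions
-/

set_option autoImplicit false

namespace Pool.Agent.TH170.GS

open Pool.Agent.W495.TA Pool.Agent.W495.FM Pool.Agent.TH117.GN Polynomial

/-- The motive of `X`, with the Chow groups `G`, is a direct summand of a finite sum of twists of
motives of abelian varieties with the slope types `Φ`. -/
def IsGeneratedByTypes {p : ℕ} [Fact p.Prime] (ν : PadicAlgCl p ≃+* ℂ) {I : Type} (K : I → Type)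
    [∀ i, Field (K i)] (M : ∀ i, (K i →+* ℂ) → ℤ) (Φ : ∀ i, Set (K i →+* ℂ)) (Ω : Type) [Field Ω]
    [CharZero Ω] (G : ChowGroups) (d : ℕ) : Prop :=
  ∃ (J : Type) (_ : Fintype J) (Y : J → RedAV p ν) (C : ∀ l, Cycles Ω (Y l)) (g : J → ℕ)
    (s : J → ℤ) (R : Corrs G C), (∀ l, GS.OfTypes K M Φ (Y l)) ∧ (∀ l, IsChow (C l)) ∧
      IsMotivicSummand G d C g s R

/-- A smooth projective variety `X` of dimension `d`: `G` and `G2` are the Chow groups of `X` and
`X × X` (rational coefficients), `R` is the ring `CH^d(X × X)` of correspondences of degree zero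
(`toChow` is the identification), `act` its operation on `CH^n(X)`, `H c` the cohomology of degree `c`
(with coefficients in the field `Q`), `rho` the operation of `R`, `cl` the class map, and `F` the
correspondence of the Frobenius endomorphism. -/
structure Variety (Q : Type) [Field Q] where
  G : ChowGroups
  G2 : ChowGroups
  d : ℕ
  R : Type
  H : ℕ → Type
  [ringR : Ring R]
  [algR : Algebra ℚ R]
  [groupH : ∀ c, AddCommGroup (H c)]
  [moduleH : ∀ c, Module Q (H c)]
  [finiteH : ∀ c, FiniteDimensional Q (H c)]
  toChow : R → G2.A d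
  act : R → ∀ n, G.A n → G.A n
  rho : ∀ c, R →+* Module.End Q (H c)
  cl : ∀ n, G.A n → H (2 * n)
  F : R

attribute [instance] Variety.ringR Variety.algR Variety.groupH Variety.moduleH Variety.finiteH

/-- The formal properties of correspondences and of a Weil cohomology theory: `R` is `CH^d(X × X)`;
homologically trivial cycles on `X` and on `X × X` are numerically trivial (the class of `r` is trivial
if `r` operates as zero on the cohomology: Künneth formula and Poincaré duality); the class map is
compatible with correspondences; the cohomology vanishes in degrees above `2 d`. -/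
structure Variety.IsWeil {Q : Type} [Field Q] (X : Variety Q) : Prop where
  toChow : ∀ r, X.toChow r = 0 → r = 0
  add : ∀ n x y, X.cl n (x + y) = X.cl n x + X.cl n y
  trace : ∀ m n, m + n = X.d → ∀ x, X.cl n x = 0 → ∀ z : X.G.A m, X.G.int m n z x = 0
  trace2 : ∀ r, (∀ c, X.rho c r = 0) → ∀ z : X.G2.A X.d, X.G2.int X.d X.d z (X.toChow r) = 0
  act : ∀ r n x, X.cl n (X.act r n x) = X.rho (2 * n) r (X.cl n x)
  above : ∀ c, 2 * X.d < c → ∀ x : X.H c, x = 0
  codim : ∀ n, X.d < n → ∀ x : X.G.A n, x = 0

/-- The characteristic polynomials of the Frobenius endomorphism on the groups `H c` have rational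
coefficients, and those for different `c ≤ 2 d` have no common roots (Deligne: the absolute values of
the roots are `q ^ (c / 2)`). -/
def Variety.IsPure {Q : Type} [Field Q] [Algebra ℚ Q] (X : Variety Q) : Prop :=
  ∃ P : ℕ → ℚ[X], (∀ c, (X.rho c X.F).charpoly = (P c).map (algebraMap ℚ Q)) ∧
    ∀ c c', c ≤ 2 * X.d → c' ≤ 2 * X.d → c ≠ c' → IsCoprime (P c) (P c')

/-- A Chow-Künneth decomposition of the motive `(X, e, m)`, where `e` is an idempotent in `R`: a
decomposition of `e` into orthogonal idempotents `w c` such that `w c` operates on the cohomology of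
degree `c` (of `X`; this is the cohomology of degree `c - 2 m` of the motive) as `e`, and as zero on the
cohomology of all other degrees. -/
structure Variety.IsChowKunneth {Q : Type} [Field Q] (X : Variety Q) (e : X.R) (w : ℕ → X.R) :
    Prop where
  idem : ∀ c, w c * w c = w c
  orth : ∀ c c', c ≠ c' → w c * w c' = 0
  above : ∀ c, 2 * X.d < c → w c = 0
  sum : ∑ c ∈ Finset.range (2 * X.d + 1), w c = e
  same : ∀ c, X.rho c (w c) = X.rho c e
  other : ∀ c c', c ≠ c' → X.rho c' (w c) = 0

/-- The step `F^ν CH^n` of the filtration given by a Chow-Künneth decomposition: the sum of the images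
of the idempotents `w c` for `c + ν ≤ 2 n`. -/
def Variety.step {Q : Type} [Field Q] (X : Variety Q) (w : ℕ → X.R) (ν : ℤ) (n : ℕ) : Set (X.G.A n) :=
  {y | ∃ x, y = X.act (∑ c ∈ (Finset.range (2 * X.d + 1)).filter
    (fun c : ℕ => (c : ℤ) + ν ≤ 2 * n), w c) n x}

/-- Murre's conjectures (A), (B), (C) and (D) for the motive `(X, e, m)`, and more: correspondences of
degree zero that operate as zero on the cohomology are zero (so in decompositions of `(X, e, m)` there
are no components `M_i` with other indices than those of the `w c`, `c ≤ 2 d`); there are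
Chow-Künneth decompositions; for all of them, `CH^n((X, w c)) = 0` for `c ≠ 2 n`, and `F^ν CH^n((X, e))`
is `CH^n((X, e))` for `ν ≤ 0` and zero for `ν > 0`; homologically trivial cycles on `(X, e)` are zero.
(In the homological indices of the problem, with `d = dim X`, `M_i = (X, w c, m)` for
`i = 2 d + 2 m - c`, and `CH_l(M) = e CH^n(X)` for `l = d + m - n`.) -/
structure Variety.Murre {Q : Type} [Field Q] (X : Variety Q) (e : X.R) : Prop where
  faithful : ∀ r, (∀ c, X.rho c r = 0) → r = 0
  exist : ∃ w, X.IsChowKunneth e w
  vanish : ∀ w, X.IsChowKunneth e w → ∀ c n, c ≠ 2 * n → ∀ x, X.act (w c) n x = 0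
  filtration : ∀ w, X.IsChowKunneth e w → ∀ (ν : ℤ) (n : ℕ),
    X.step w ν n = {x | (∃ y, x = X.act e n y) ∧ (0 < ν → x = 0)}
  trivial : ∀ n x, X.cl n (X.act e n x) = 0 → X.act e n x = 0

end Pool.Agent.TH170.GS
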