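import Mathlib
import Pool.Agent.TH170.GS.MurreDefs
import Pool.Agent.TH117.GN.Num

/-!
# Murre's conjectures for motives over finite fields
-/

set_option autoImplicit false

namespace Pool.Agent.TH170.GS

open Pool.Agent.W495.TA Pool.Agent.W495.FM Pool.Agent.TH117.GN Polynomial

section Frobenius

variable {Q : Type} [Field Q] (X : Variety Q)

/-- The operation of the polynomials in the Frobenius endomorphism on the cohomology. -/
noncomputable def frob (c : ℕ) : ℚ[X] →+* Module.End Q (X.H c) :=
  (X.rho c).comp (aeval X.F : ℚ[X] →ₐ[ℚ] X.R).toRingHom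

theorem frob_eq [Algebra ℚ Q] (c : ℕ) (P : ℚ[X]) :
    frob X c P = aeval (X.rho c X.F) (P.map (algebraMap ℚ Q)) := by
  let f : ℚ[X] →+* Module.End Q (X.H c) :=
    ((aeval (X.rho c X.F) : Q[X] →ₐ[Q] _).toRingHom).comp (mapRingHom (algebraMap ℚ Q))
  have h : frob X c = f := by
    refine Polynomial.ringHom_ext' ?_ ?_
    · exact Subsingleton.elim _ _
    · simp [frob, f]
  rw [h]
  rfl

theorem exists_poly [Algebra ℚ Q] (hX : X.IsPure) (c : ℕ) (hc : c ≤ 2 * X.d) :
    ∃ E : ℚ[X], frob X c E = 1 ∧ ∀ c', c' ≤ 2 * X.d → c' ≠ c → frob X c' E = 0 := by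
  classical
  obtain ⟨P, hP, hcop⟩ := hX
  have hzero : ∀ c', frob X c' (P c') = 0 := by
    intro c'
    rw [frob_eq, ← hP]
    exact LinearMap.aeval_self_charpoly _
  have h1 : IsCoprime (P c) (∏ c' ∈ (Finset.range (2 * X.d + 1)).erase c, P c') := by
    refine IsCoprime.prod_right fun c' hc' => ?_
    rw [Finset.mem_erase, Finset.mem_range] at hc'
    exact hcop c c' hc (by omega) (Ne.symm hc'.1)
  obtain ⟨a, b, hab⟩ := h1
  refine ⟨b * ∏ c' ∈ (Finset.range (2 * X.d + 1)).erase c, P c', ?_, ?_⟩
  · have h2 : frob X c (a * P c + b * ∏ c' ∈ (Finset.range (2 * X.d + 1)).erase c, P c') = 1 := by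
      rw [hab, map_one]
    rw [map_add, map_mul (frob X c) a, hzero, mul_zero, zero_add] at h2
    exact h2
  · intro c' hc' hne
    have h3 : P c' ∣ ∏ c' ∈ (Finset.range (2 * X.d + 1)).erase c, P c' :=
      Finset.dvd_prod_of_mem _ (by rw [Finset.mem_erase, Finset.mem_range]; exact ⟨hne, by omega⟩)
    obtain ⟨e, he⟩ := h3
    rw [he, map_mul, map_mul, hzero, zero_mul, mul_zero]

end Frobenius

/-- Murre's conjectures if homological and rational equivalence coincide on `X` and `X × X`. -/
theorem murre_of {Q : Type} [Field Q] [Algebra ℚ Q] (X : Variety Q) (hX : X.IsWeil)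
    (hp : X.IsPure) (h1 : ∀ n x, X.cl n x = 0 → x = 0) (h2 : ∀ r, (∀ c, X.rho c r = 0) → r = 0)
    (e : X.R) (he : e * e = e) : X.Murre e := by
  classical
  have hcl : ∀ n x y, X.cl n x = X.cl n y → x = y := by
    intro n x y hxy
    have h0 : X.cl n 0 = 0 := by
      have := hX.add n 0 0
      rw [add_zero] at this
      exact left_eq_add.1 this
    have h3 : X.cl n (x - y) + X.cl n y = X.cl n y := by
      rw [← hX.add, sub_add_cancel, hxy]
    exact sub_eq_zero.1 (h1 n _ (by simpa using h3))
  have hinj : ∀ r s, (∀ c, c ≤ 2 * X.d → X.rho c r = X.rho c s) → r = s := by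
    intro r s hrs
    refine sub_eq_zero.1 (h2 _ fun c => ?_)
    rw [map_sub]
    rcases le_or_gt c (2 * X.d) with hc | hc
    · rw [hrs c hc, sub_self]
    · ext x
      exact (hX.above c hc _).trans (hX.above c hc _).symm
  have hact : ∀ r n x, X.rho (2 * n) r = 0 → X.act r n x = 0 := by
    intro r n x hr
    apply h1
    rw [hX.act, hr]
    rfl
  refine ⟨h2, ?_, ?_, ?_, ?_⟩
  · choose E hE1 hE2 using fun c : Fin (2 * X.d + 1) => exists_poly X hp c (by omega)
    let w : ℕ → X.R := fun c => if h : c < 2 * X.d + 1 then e * aeval X.F (E ⟨c, h⟩) * e else 0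
    have hw1 : ∀ c, c ≤ 2 * X.d → X.rho c (w c) = X.rho c e := by
      intro c hc
      have h3 : c < 2 * X.d + 1 := by omega
      have h4 : X.rho c (aeval X.F (E ⟨c, h3⟩)) = 1 := hE1 ⟨c, h3⟩
      simp only [w, dif_pos h3]
      rw [map_mul, map_mul, h4, mul_one, ← map_mul, he]
    have hw2 : ∀ c c', c' ≤ 2 * X.d → c ≠ c' → X.rho c' (w c) = 0 := by
      intro c c' hc' hne
      by_cases h3 : c < 2 * X.d + 1
      · have h4 : X.rho c' (aeval X.F (E ⟨c, h3⟩)) = 0 := hE2 ⟨c, h3⟩ c' hc' (Ne.symm hne)
        simp only [w, dif_pos h3]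
        rw [map_mul, map_mul, h4, mul_zero, zero_mul]
      · simp only [w, dif_neg h3]
        rw [map_zero]
    refine ⟨w, ?_, ?_, ?_, ?_, ?_, ?_⟩
    · intro c
      refine hinj _ _ fun c' hc' => ?_
      rw [map_mul]
      by_cases hne : c = c'
      · subst hne
        rw [hw1 c hc', ← map_mul, he]
      · rw [hw2 c c' hc' hne, mul_zero]
    · intro c c' hne
      refine hinj _ _ fun c'' hc'' => ?_
      rw [map_mul, map_zero]
      by_cases h3 : c = c''
      · subst h3
        rw [hw2 c' c hc'' (Ne.symm hne), mul_zero]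
      · rw [hw2 c c'' hc'' h3, zero_mul]
    · intro c hc
      simp only [w, dif_neg (show ¬ c < 2 * X.d + 1 by omega)]
    · refine hinj _ _ fun c' hc' => ?_
      rw [map_sum, Finset.sum_eq_single c']
      · exact hw1 c' hc'
      · intro c _ hne
        exact hw2 c c' hc' hne
      · intro h3
        exact absurd (Finset.mem_range.2 (by omega)) h3
    · intro c
      rcases le_or_gt c (2 * X.d) with hc | hc
      · exact hw1 c hc
      · ext x
        exact (hX.above c hc _).trans (hX.above c hc _).symm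
    · intro c c' hne
      rcases le_or_gt c' (2 * X.d) with hc | hc
      · exact hw2 c c' hc hne
      · ext x
        exact (hX.above c' hc _).trans (hX.above c' hc _).symm
  · intro w hw c n hne x
    exact hact _ _ _ (hw.other c (2 * n) hne)
  · intro w hw ν n
    have hzero : X.act e n 0 = 0 := by
      apply h1
      have h0 : X.cl n 0 = 0 := by
        have := hX.add n 0 0
        rw [add_zero] at this
        exact left_eq_add.1 this
      rw [hX.act, h0, map_zero]
    rcases le_or_gt n X.d with hn | hn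
    · by_cases hν : 0 < ν
      · have key : ∀ x, X.act (∑ c ∈ (Finset.range (2 * X.d + 1)).filter
            (fun c : ℕ => (c : ℤ) + ν ≤ 2 * n), w c) n x = 0 := by
          intro x
          refine hact _ _ _ ?_
          rw [map_sum]
          refine Finset.sum_eq_zero fun c hc => ?_
          rw [Finset.mem_filter] at hc
          exact hw.other c _ (by omega)
        ext y
        constructor
        · rintro ⟨x, hx⟩
          have h3 : y = 0 := hx.trans (key x)
          exact ⟨⟨0, h3.trans hzero.symm⟩, fun _ => h3⟩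
        · rintro ⟨-, hy⟩
          exact ⟨0, (hy hν).trans (key 0).symm⟩
      · have key : ∀ x, X.act (∑ c ∈ (Finset.range (2 * X.d + 1)).filter
            (fun c : ℕ => (c : ℤ) + ν ≤ 2 * n), w c) n x = X.act e n x := by
          intro x
          apply hcl
          rw [hX.act, hX.act, map_sum, Finset.sum_eq_single (2 * n), hw.same]
          · intro c _ hne
            exact hw.other c _ hne
          · intro h3
            exfalso
            apply h3
            rw [Finset.mem_filter, Finset.mem_range]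
            constructor
            · omega
            · push_cast
              omega
        ext y
        constructor
        · rintro ⟨x, hx⟩
          exact ⟨⟨x, hx.trans (key x)⟩, fun h3 => absurd h3 hν⟩
        · rintro ⟨⟨x, hx⟩, -⟩
          exact ⟨x, hx.trans (key x).symm⟩
    · ext y
      constructor
      · rintro -
        exact ⟨⟨0, (hX.codim n hn _).trans (hX.codim n hn _).symm⟩, fun _ => hX.codim n hn _⟩
      · rintro -
        exact ⟨0, (hX.codim n hn _).trans (hX.codim n hn _).symm⟩
  · intro n x hx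
    exact h1 n _ hx

variable {p : ℕ} [Fact p.Prime] {ν : PadicAlgCl p ≃+* ℂ} {I : Type} (K : I → Type)
  [∀ i, Field (K i)] (M : ∀ i, (K i →+* ℂ) → ℤ) (Φ : ∀ i, Set (K i →+* ℂ))

/-- Murre's conjectures for motives generated by abelian varieties with given slope types. -/
theorem murre (h : ∀ Y : RedAV p ν, GS.OfTypes K M Φ Y → IsElementaryAV Y) {Ω : Type} [Field Ω]
    [IsAlgClosed Ω] [CharZero Ω] {Q : Type} [Field Q] [Algebra ℚ Q] (X : Variety Q)
    (hX : X.IsWeil) (hp : X.IsPure) (h1 : IsGeneratedByTypes ν K M Φ Ω X.G X.d)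
    (h2 : IsGeneratedByTypes ν K M Φ Ω X.G2 (X.d + X.d)) (e : X.R) (he : e * e = e) :
    X.Murre e := by
  refine murre_of X hX hp ?_ ?_ e he
  · intro n x hx
    rcases le_or_gt n X.d with hn | hn
    · obtain ⟨J, hJ, Y, C, g, s, R, a1, a2, a3⟩ := h1
      obtain ⟨m, hm⟩ : ∃ m, m + n = X.d := ⟨X.d - n, by omega⟩
      exact num_summand (fun l => h (Y l) (a1 l)) a2 a3 hm x (hX.trace m n hm x hx)
    · exact hX.codim n hn x
  · intro r hr
    obtain ⟨J, hJ, Y, C, g, s, R, a1, a2, a3⟩ := h2
    exact hX.toChow r (num_summand (fun l => h (Y l) (a1 l)) a2 a3 rfl _ (hX.trace2 r hr))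

/-- The Chow-Künneth filtration of varieties generated by abelian varieties with given slope types. -/
theorem independence (h : ∀ Y : RedAV p ν, GS.OfTypes K M Φ Y → IsElementaryAV Y) {Ω : Type}
    [Field Ω] [IsAlgClosed Ω] [CharZero Ω] {Q : Type} [Field Q] [Algebra ℚ Q] (X : Variety Q)
    (hX : X.IsWeil) (hp : X.IsPure) (h1 : IsGeneratedByTypes ν K M Φ Ω X.G X.d)
    (h2 : IsGeneratedByTypes ν K M Φ Ω X.G2 (X.d + X.d)) :
    (∃ w, X.IsChowKunneth 1 w) ∧ ∀ w, X.IsChowKunneth 1 w → ∀ (k : ℤ) (n : ℕ),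
      X.step w k n = {x | 0 < k → x = 0} := by
  have hM := murre K M Φ h X hX hp h1 h2 1 (one_mul 1)
  refine ⟨hM.exist, fun w hw k n => ?_⟩
  have hone : ∀ y, X.act 1 n y = y := by
    intro y
    have h0 : ∀ x, X.cl n x = 0 → x = 0 := by
      intro x hx
      rcases le_or_gt n X.d with hn | hn
      · obtain ⟨J, hJ, Y, C, g, s, R, a1, a2, a3⟩ := h1
        obtain ⟨m, hm⟩ : ∃ m, m + n = X.d := ⟨X.d - n, by omega⟩
        exact num_summand (fun l => h (Y l) (a1 l)) a2 a3 hm x (hX.trace m n hm x hx)
      · exact hX.codim n hn x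
    refine sub_eq_zero.1 (h0 _ ?_)
    have h3 : X.cl n (X.act 1 n y - y) + X.cl n y = X.cl n y := by
      rw [← hX.add, sub_add_cancel, hX.act, map_one]
      rfl
    simpa using h3
  rw [hM.filtration w hw k n]
  ext x
  exact ⟨fun h3 => h3.2, fun h3 => ⟨⟨x, (hone x).symm⟩, h3⟩⟩

end Pool.Agent.TH170.GS
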