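import Mathlib
import Pool.Agent.TH170.GS.Defs
import Pool.Agent.W495.FM.HomDefs

/-!
# Schemes over finite fields generated by abelian varieties with given slope types: definitions
-/

namespace Pool.Agent.TH170.GS

open Pool.Agent.W495.TA Pool.Agent.W495.FM

/-- The groups of motivic and of `ℓ`-adic homology of `X` are those of an abelian variety `Y` with the
slope types `Φ` (for the weights `M` and the fields `K`). -/
def IsAbelianOfTypes {p : ℕ} [Fact p.Prime] (ν : PadicAlgCl p ≃+* ℂ) {I : Type} (K : I → Type)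
    [∀ i, Field (K i)] (M : ∀ i, (K i →+* ℂ) → ℤ) (Φ : ∀ i, Set (K i →+* ℂ)) {Ω V : Type} [Field Ω]
    [CharZero Ω] (T : Homology Ω V) (X : V) : Prop :=
  ∃ (Y : RedAV p ν) (C : Cycles Ω Y) (D : Motivic C) (g : ℕ), OfTypes K M Φ Y ∧ IsChow C ∧
    IsMotivic D ∧ IsAbelian T X D g

end Pool.Agent.TH170.GS
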