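import Mathlib
import Pool.Agent.TH170.GS.TBDefs
import Pool.Agent.TH117.GN.Main

/-!
# Schemes over finite fields generated by abelian varieties with given slope types
-/

namespace Pool.Agent.TH170.GS

open Pool.Agent.W495.TA Pool.Agent.W495.FM Pool.Agent.TH117 Pool.Agent.TH117.GN

theorem tb_types {p : ℕ} [Fact p.Prime] {ν : PadicAlgCl p ≃+* ℂ} {I : Type} {K : I → Type}
    [∀ i, Field (K i)] {M : ∀ i, (K i →+* ℂ) → ℤ} {Φ : ∀ i, Set (K i →+* ℂ)}
    (h : ∀ Y : RedAV p ν, OfTypes K M Φ Y →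
      ∃ Z : RedAV p ν, BL.HasElementaryRelations Z ∧ BL.IsPowersTimesSupersingular Z Y)
    {Ω V : Type} [Field Ω] [IsAlgClosed Ω] [CharZero Ω] {T : Homology Ω V} (hT : IsHomology T)
    {X : V} (hX : Generated T (IsAbelianOfTypes ν K M Φ T) X) : TB T X := by
  refine tb_generated hT (fun X hX => ?_) hX
  obtain ⟨Y, C, D, g, h1, hC, hD, hX⟩ := hX
  obtain ⟨Z, h2, h3⟩ := h Y h1
  exact tb_abelian hT hC (tateHolds_elem h2 h3 hC) hD hX

end Pool.Agent.TH170.GS
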