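import Mathlib
import Pool.Agent.TH170.GS.TB
import Pool.Agent.TH117.GN.Wt

/-!
# Open subvarieties and images of schemes generated by abelian varieties with given slope types
-/

namespace Pool.Agent.TH170.GS

open Pool.Agent.W495.TA Pool.Agent.W495.FM Pool.Agent.TH117 Pool.Agent.TH117.GN

variable {p : ℕ} [Fact p.Prime] {ν : PadicAlgCl p ≃+* ℂ} {I : Type} {K : I → Type}
  [∀ i, Field (K i)] {M : ∀ i, (K i →+* ℂ) → ℤ} {Φ : ∀ i, Set (K i →+* ℂ)}

theorem onto_types (h : ∀ Y : RedAV p ν, OfTypes K M Φ Y →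
      ∃ Z : RedAV p ν, BL.HasElementaryRelations Z ∧ BL.IsPowersTimesSupersingular Z Y)
    {Ω V : Type} [Field Ω] [IsAlgClosed Ω] [CharZero Ω] {T : Homology Ω V} (hT : IsHomology T)
    (hW : HasWeights T) {X : V} (hX : Spread T (Generated T (IsAbelianOfTypes ν K M Φ T)) X)
    (i : ℤ) : IsOnto T X i :=
  onto_spread hT hW (fun _ h1 i => ((tb_types h hT h1).iso hT i).1) hX i

theorem iso_types (h : ∀ Y : RedAV p ν, OfTypes K M Φ Y →
      ∃ Z : RedAV p ν, BL.HasElementaryRelations Z ∧ BL.IsPowersTimesSupersingular Z Y)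
    {Ω V : Type} [Field Ω] [IsAlgClosed Ω] [CharZero Ω] {T : Homology Ω V} (hT : IsHomology T)
    (hW : HasWeights T) {X : V} (hX : Generated T (IsAbelianOfTypes ν K M Φ T) X)
    {Z U : V} {d : ℤ} (h1 : IsTriple T Z X U) (hZ : HasDimLE T Z d) {i : ℤ} (hi : d ≤ i) :
    IsIso T U i :=
  iso_opened hT hW h1 (onto_of_dim hT hZ hi) ((tb_types h hT hX).iso hT i)

end Pool.Agent.TH170.GS
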